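import Pool.Agent.Helper61.QE.St3

/-!
# Project QD, PART E, module CTR: there is no sequence
-/

set_option autoImplicit false

open MeasureTheory Set Filter Topology Complex
open scoped ContDiff ComplexConjugate ENNReal

namespace Pool.Agent.Helper47.QE

open Pool.Agent.Helper68.QC Pool.Agent.Helper61.QE

private lemma re_far (x y : ℂ) (a b : ℝ) (hx : x.re = a) (hy : y.re = b) (h : 1 / 2 ≤ |a - b|) :
    1 / 2 ≤ ‖x - y‖ := by
  have h1 := Complex.abs_re_le_norm (x - y)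
  rw [Complex.sub_re, hx, hy] at h1
  linarith

private lemma mem_img (P : ℂ → ℂ) (w A1 : ℂ) (hP0 : P 0 = 0) (hw : ‖w‖ ≤ 1) (hA : ‖A1‖ < 1 / 2)
    (hout : ∀ y : ℂ, ‖y‖ < 1 → ∃ u ∈ D, P u = y) :
    A1 ∈ (fun u => P u / (1 - w * P u)) '' D := by
  by_cases h0 : A1 = 0
  · refine ⟨0, by simp [D], ?_⟩
    simp only [hP0, h0, zero_div]
  · have hpos : 0 < ‖A1‖ := norm_pos_iff.2 h0
    obtain ⟨ξ, hξ⟩ : ∃ ξ, ξ = w + A1⁻¹ := ⟨_, rfl⟩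
    have h2 : 2 < ‖A1⁻¹‖ := by
      rw [norm_inv, lt_inv_comm₀ (by norm_num) hpos]
      linarith
    have h3 : 1 < ‖ξ‖ := by
      have h4 : ‖A1⁻¹‖ ≤ ‖ξ‖ + ‖w‖ := by
        have h5 : A1⁻¹ = ξ - w := by rw [hξ]; ring
        rw [h5]
        exact norm_sub_le _ _
      linarith
    have hξ0 : ξ ≠ 0 := by
      intro h
      rw [h, norm_zero] at h3
      linarith
    obtain ⟨u, hu, hPu⟩ := hout ξ⁻¹ (by
      rw [norm_inv]
      exact inv_lt_one_of_one_lt₀ h3)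
    refine ⟨u, hu, ?_⟩
    show P u / (1 - w * P u) = A1
    have h6 : ξ - w = A1⁻¹ := by rw [hξ]; ring
    have h7 : 1 - w * ξ⁻¹ = (ξ - w) * ξ⁻¹ := by
      field_simp
    rw [hPu, h7, h6]
    field_simp

theorem pCTR (hNID : Pool.Agent.Helper68.QC.StNID) (hLIM : Pool.Agent.Helper61.QE.StLIM)
    (hSNE : Pool.Agent.Helper61.QE.StSNE) (hSNX : Pool.Agent.Helper61.QE.StSNX)
    (hQUA : Pool.Agent.Helper61.QE.StQUA) (hMB1 : Pool.Agent.Helper61.QE.StMB1)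
    (hBDS : Pool.Agent.Helper61.QE.StBDS) (hOUT : Pool.Agent.Helper61.QE.StOUT)
    (hTR3 : Pool.Agent.Helper61.QE.StTR3) (hSMA : Pool.Agent.Helper61.QE.StSMA)
    (hNSW : Pool.Agent.Helper61.QE.StNSW) (hHAT : Pool.Agent.Helper61.QE.StHAT)
    (hFIN : Pool.Agent.Helper61.QE.StFIN) : Pool.Agent.Helper61.QE.StCTR := by
  obtain ⟨C0, hC0⟩ := hNID 1
  obtain ⟨C, hC⟩ : ∃ C, C = max C0 0 := ⟨_, rfl⟩
  have hCn : 0 ≤ C := by rw [hC]; exact le_max_right _ _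
  have hC1 : C0 ≤ C := by rw [hC]; exact le_max_left _ _
  refine ⟨min (1 / 2) (1 / (1600 * (C + 1))), lt_min (by norm_num) (by positivity), ?_⟩
  intro Γ _ s F h t0 G N R R' hFu hFD hAb h0 hle h1 hSq
  have ht2 : ‖t0‖ ≤ 1 / 2 := hle.trans (min_le_left _ _)
  have ht3 : ‖t0‖ ≤ 1 / (1600 * (C + 1)) := hle.trans (min_le_right _ _)
  obtain ⟨U, P, ν, Ri, Ri', hL⟩ := hLIM Γ s F h t0 G N R R' hFu hFD hAb h0 h1 hSq
  have hN : ∀ z : ℂ, ‖z‖ ≤ 1 → ‖nq ν z - z‖ ≤ 1 / 1600 := by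
    intro z hz
    have h2 := hC0 ‖t0‖ (norm_nonneg _) ht2 ν hL.nbel z hz
    have h3 : C0 * ‖t0‖ ≤ C * ‖t0‖ := mul_le_mul_of_nonneg_right hC1 (norm_nonneg _)
    have h4 : C * ‖t0‖ ≤ C * (1 / (1600 * (C + 1))) := mul_le_mul_of_nonneg_left ht3 hCn
    have h5 : C * (1 / (1600 * (C + 1))) ≤ 1 / 1600 := by
      rw [mul_one_div, div_le_div_iff₀ (by positivity) (by norm_num)]
      linarith
    linarith
  obtain ⟨hne, -, hsub⟩ := hSNE U G hSq.gd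
  have hsnx := hSNX U G P hSq.gd hL.phol hL.pinj hL.pzero hL.pcon
  have hcr := hQUA Γ s F h t0 G N R R' U P ν Ri Ri' hFu hFD h1 hSq hL
  have hmb := hMB1 (Sset U G) (nq ν) (nq ν).injective.injOn hcr
  have htr := hTR3 Γ s F h t0 G N R R' U P ν Ri Ri' hFu hFD h1 hSq hL
  obtain ⟨w, hw, hwr⟩ := htr 0 ⟨le_refl _, by norm_num⟩
  obtain ⟨x, hx, hxr⟩ := htr (1 / 2) ⟨by norm_num, by norm_num⟩
  obtain ⟨y, hy, hyr⟩ := htr 1 ⟨by norm_num, le_refl _⟩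
  have hw1 : ‖w‖ ≤ 1 := mem_closedBall_zero_iff.1 (hsub hw)
  have hx1 : ‖x‖ ≤ 1 := mem_closedBall_zero_iff.1 (hsub hx)
  have hy1 : ‖y‖ ≤ 1 := mem_closedBall_zero_iff.1 (hsub hy)
  have dxy : 1 / 2 ≤ ‖x - y‖ := re_far x y _ _ hxr hyr (by norm_num [abs_le])
  have dxw : 1 / 2 ≤ ‖x - w‖ := re_far x w _ _ hxr hwr (by norm_num)
  have dyw : 1 / 2 ≤ ‖y - w‖ := re_far y w _ _ hyr hwr (by norm_num)
  have hxw : x ≠ w := by
    intro h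
    rw [h, sub_self, norm_zero] at dxw
    linarith
  have hyw : y ≠ w := by
    intro h
    rw [h, sub_self, norm_zero] at dyw
    linarith
  obtain ⟨A1, A2, hA2, hA⟩ := hmb w hw
  have hA1 : ‖A1‖ < 1 / 2 := hSMA x y w (nq ν x) (nq ν y) (nq ν w) A1 A2 hx1 hy1 hw1 dxy dxw dyw
    (hN x hx1) (hN y hy1) (hN w hw1) (hA x hx hxw) (hA y hy hyw)
  have hmem : A1 ∈ (fun u => P u / (1 - w * P u)) '' D :=
    mem_img P w A1 hL.pzero hw1 hA1 (hOUT U G P hSq.gd hL.phol hL.pzero hL.pcon)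
  have hbd := hBDS Γ s F h t0 G N R R' U P ν Ri Ri' hFu hFD h1 hSq hL w hw
  have hself := hNSW P (nq ν) w A1 A2 (Sset U G) hL.phol hL.pinj hL.pzero (hsnx w hw) hA2 hA hbd
    hmem
  obtain ⟨A, hAd, hAm, hAe⟩ := hHAT Γ s F h t0 G N R R' U P ν Ri Ri' hFu hFD hAb h1 hSq hL w hw
    A1 A2 hA2 hA hself
  exact hFIN Γ s F h t0 hFu hFD hAb h0 h1 A hAd hAm hAe

end Pool.Agent.Helper47.QE
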